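import Pool.Agent.L5helper85.CombFar
import Pool.Agent.L5helper85.CombDfw

/-!
# Weak versus strong `W^{1,p}` closure of diffeomorphisms: all dimensions `n ≥ 3`, all exponents

For every `n ≥ 3` there are bounded connected open sets `Ω, Ω'` in `ℝⁿ` and a single map `f` which,
for every `1 ≤ p < ∞`, is a weak `W^{1,p}` limit of `C¹` diffeomorphisms of `Ω` onto `Ω'` but not a
strong `W^{1,p}` limit of such diffeomorphisms, not even of homeomorphisms of `Ω` onto `Ω'`.
The sets are combs: `Ω` has straight teeth of all scales `2^{-i}`, the teeth of `Ω'` zigzag with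
slopes of order one.
-/

set_option autoImplicit false

open MeasureTheory Set Filter Topology Metric
open scoped ENNReal NNReal InnerProductSpace

namespace Pool.Agent.Results.MP_fc472d_an.AllExponents

open Pool.Agent.L5helper85.Sob Pool.Agent.L5helper85.Comb

lemma strong_part {m : ℕ} {p : ℝ≥0∞} (hp : 1 ≤ p) :
    (Fc 0 : Eu (m + 2) → Eu (m + 2)) ∉ strongClosure p (Om m) (Om' m) := by
  rintro ⟨-, Df, F, DF, hf, hF, hlim⟩
  have hfin : IsFiniteMeasure (volume.restrict (Om m) : Measure (Eu (m + 2))) :=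
    ⟨by simpa using vol_Om_lt⟩
  set μ : Measure (Eu (m + 2)) := volume.restrict (Om m) with hμ
  set c : ℝ≥0∞ := μ univ ^ (1 / (1 : ℝ≥0∞).toReal - 1 / p.toReal) with hc
  have hexp : 0 ≤ 1 / (1 : ℝ≥0∞).toReal - 1 / p.toReal := by
    rcases eq_or_ne p ⊤ with h | h
    · rw [h]; simp
    · have h1 : 1 ≤ p.toReal := by
        rw [← ENNReal.toReal_one]
        exact ENNReal.toReal_mono h hp
      rw [ENNReal.toReal_one, div_one, sub_nonneg]
      exact (div_le_one (by linarith)).mpr h1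
  have hct : c ≠ ⊤ := (ENNReal.rpow_lt_top_of_nonneg hexp (measure_ne_top _ _)).ne
  have key : ∀ k, ENNReal.ofReal (1 / 32) * volume (S0 m) ≤
      (eLpNorm (fun x => F k x - Fc 0 x) p μ + eLpNorm (fun x => DF k x - Df x) p μ) * c := by
    intro k
    have h1 := far (F k) (DF k) Df (hF k).1.2.1 (hF k).1.1.mapsTo (hF k).2.2.2 hf.2.2
      ((hF k).2.1.integrable hp) (hf.1.integrable hp) ((hF k).2.2.1.integrable hp)
      (hf.2.1.integrable hp)
    refine h1.trans ?_
    rw [add_mul]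
    refine add_le_add ?_ ?_
    · rw [← eLpNorm_one_eq_lintegral_enorm]
      exact eLpNorm_le_eLpNorm_mul_rpow_measure_univ hp ((hF k).2.1.1.sub hf.1.1)
    · rw [← eLpNorm_one_eq_lintegral_enorm]
      exact eLpNorm_le_eLpNorm_mul_rpow_measure_univ hp ((hF k).2.2.1.1.sub hf.2.1.1)
  have h2 : Tendsto (fun k => (eLpNorm (fun x => F k x - Fc 0 x) p μ +
      eLpNorm (fun x => DF k x - Df x) p μ) * c) atTop (𝓝 (0 * c)) :=
    ENNReal.Tendsto.mul_const hlim (Or.inr hct)
  rw [zero_mul] at h2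
  have h3 := ge_of_tendsto' h2 key
  have h4 : ENNReal.ofReal (1 / 32) * volume (S0 m) ≠ 0 := by
    apply mul_ne_zero _ vol_S0_ne
    simp
  exact h4 (le_zero_iff.mp h3)

/-- **Theorem.** For every `n ≥ 3` there are bounded, connected, open sets `Ω, Ω' ⊆ ℝⁿ` and a map
`f` such that for every `1 ≤ p < ∞` the map `f` is a weak `W^{1,p}` limit of diffeomorphisms of `Ω`
onto `Ω'`, but neither a strong `W^{1,p}` limit of diffeomorphisms nor of homeomorphisms of `Ω`
onto `Ω'`. -/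
theorem result (n : ℕ) (hn : 3 ≤ n) : ∃ Ω Ω' : Set (Eu n),
    (IsOpen Ω ∧ IsConnected Ω ∧ Bornology.IsBounded Ω) ∧
    (IsOpen Ω' ∧ IsConnected Ω' ∧ Bornology.IsBounded Ω') ∧
    ∃ f : Eu n → Eu n, ∀ p : ℝ≥0∞, 1 ≤ p → p ≠ ⊤ →
      f ∈ weakDiffClosure p Ω Ω' ∧ f ∉ strongDiffClosure p Ω Ω' ∧ f ∉ strongClosure p Ω Ω' := by
  obtain ⟨m, rfl⟩ : ∃ m, n = m + 2 := ⟨n - 2, by omega⟩
  exact ⟨Om m, Om' m, ⟨Om_open, Om_conn, Om_bdd⟩, ⟨Om'_open, Om'_conn, Om'_bdd⟩, Fc 0,
    fun p hp _ => ⟨weak_diff_part p, fun h => strong_part hp (strongDiff_subset h), strong_part hp⟩⟩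

end Pool.Agent.Results.MP_fc472d_an.AllExponents
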